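import Pool.Agent.Helper5.WD.Stmts

/-! Row GEXM: exponential moment of the size of a class. -/

set_option autoImplicit false

open Finset Pool.Agent.Helper8.UN Pool.Agent.Helper5.FV

namespace Pool.Agent.Helper5.WD

lemma gexm_f2_CC {n : ℕ} (E : Finset (Finset (Fin n))) (W : Finset (Fin n)) (k : ℕ) (f : Fin n → ℕ) :
    f ∈ CC E W k ↔ ((∀ v ∈ W, 1 ≤ f v ∧ f v ≤ k) ∧ ∀ v, v ∉ W → f v = 0) ∧ Prp E W f := by
  classical
  unfold CC
  rw [Finset.mem_filter, Fintype.mem_piFinset]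
  refine and_congr_left fun _ => ?_
  constructor
  · intro h
    refine ⟨fun v hv => ?_, fun v hv => ?_⟩
    · have := h v
      rw [if_pos hv, Finset.mem_Icc] at this
      exact this
    · have := h v
      rw [if_neg hv, Finset.mem_singleton] at this
      exact this
  · rintro ⟨h1, h2⟩ v
    by_cases hv : v ∈ W
    · rw [if_pos hv, Finset.mem_Icc]; exact h1 v hv
    · rw [if_neg hv, Finset.mem_singleton]; exact h2 v hv

/-- the class of the last colour -/
def gexm_f2_B {n : ℕ} (W : Finset (Fin n)) (k : ℕ) (f : Fin n → ℕ) : Finset (Fin n) :=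
  W.filter (fun v => f v = k + 1)

/-- remove the class -/
def gexm_f2_i {n : ℕ} (B : Finset (Fin n)) (f : Fin n → ℕ) : Fin n → ℕ :=
  fun v => if v ∈ B then 0 else f v

/-- add the class -/
def gexm_f2_j {n : ℕ} (B : Finset (Fin n)) (k : ℕ) (f : Fin n → ℕ) : Fin n → ℕ :=
  fun v => if v ∈ B then k + 1 else f v

lemma gexm_f2_al {n : ℕ} (E : Finset (Finset (Fin n))) (W : Finset (Fin n)) (k : ℕ) (f : Fin n → ℕ)
    (hf : f ∈ CC E W (k + 1)) : gexm_f2_B W k f ⊆ W ∧ Pool.Agent.Helper89.UB.Al E (gexm_f2_B W k f) := by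
  rw [gexm_f2_CC] at hf
  obtain ⟨-, h3⟩ := hf
  refine ⟨Finset.filter_subset _ _, ?_⟩
  intro e he hsub
  obtain ⟨u, hu, v, hv, huv⟩ := h3 e he (hsub.trans (Finset.filter_subset _ _))
  have h1 := (Finset.mem_filter.mp (hsub hu)).2
  have h2 := (Finset.mem_filter.mp (hsub hv)).2
  exact huv (h1.trans h2.symm)

lemma gexm_f2_imem {n : ℕ} (E : Finset (Finset (Fin n))) (W B : Finset (Fin n)) (k : ℕ)
    (f : Fin n → ℕ) (hf : f ∈ CC E W (k + 1)) (hB : gexm_f2_B W k f = B) :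
    gexm_f2_i B f ∈ CC E (W \ B) k := by
  rw [gexm_f2_CC] at hf ⊢
  obtain ⟨⟨h1, h2⟩, h3⟩ := hf
  have hmem : ∀ v, v ∈ B ↔ v ∈ W ∧ f v = k + 1 := by
    intro v; rw [← hB, gexm_f2_B, Finset.mem_filter]
  refine ⟨⟨fun v hv => ?_, fun v hv => ?_⟩, ?_⟩
  · rw [Finset.mem_sdiff] at hv
    have h4 := h1 v hv.1
    have h5 : f v ≠ k + 1 := fun h => hv.2 ((hmem v).mpr ⟨hv.1, h⟩)
    simp only [gexm_f2_i, if_neg hv.2]
    omega
  · by_cases hvB : v ∈ B
    · simp only [gexm_f2_i, if_pos hvB]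
    · have hvW : v ∉ W := fun h => hv (Finset.mem_sdiff.mpr ⟨h, hvB⟩)
      simp only [gexm_f2_i, if_neg hvB]
      exact h2 v hvW
  · intro e he hsub
    obtain ⟨u, hu, v, hv, huv⟩ := h3 e he (hsub.trans Finset.sdiff_subset)
    refine ⟨u, hu, v, hv, ?_⟩
    have hu' := (Finset.mem_sdiff.mp (hsub hu)).2
    have hv' := (Finset.mem_sdiff.mp (hsub hv)).2
    simp only [gexm_f2_i, if_neg hu', if_neg hv']
    exact huv

lemma gexm_f2_jmem {n : ℕ} (E : Finset (Finset (Fin n))) (W B : Finset (Fin n)) (k : ℕ)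
    (g : Fin n → ℕ) (hBW : B ⊆ W) (hAl : Pool.Agent.Helper89.UB.Al E B)
    (hg : g ∈ CC E (W \ B) k) :
    gexm_f2_j B k g ∈ CC E W (k + 1) ∧ gexm_f2_B W k (gexm_f2_j B k g) = B := by
  rw [gexm_f2_CC] at hg
  obtain ⟨⟨h1, h2⟩, h3⟩ := hg
  constructor
  · rw [gexm_f2_CC]
    refine ⟨⟨fun v hv => ?_, fun v hv => ?_⟩, ?_⟩
    · by_cases hvB : v ∈ B
      · simp only [gexm_f2_j, if_pos hvB]; omega
      · have := h1 v (Finset.mem_sdiff.mpr ⟨hv, hvB⟩)
        simp only [gexm_f2_j, if_neg hvB]; omega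
    · have hvB : v ∉ B := fun h => hv (hBW h)
      simp only [gexm_f2_j, if_neg hvB]
      exact h2 v (fun h => hv (Finset.mem_sdiff.mp h).1)
    · intro e he hsub
      by_contra hcon
      push Not at hcon
      by_cases hex : ∃ u ∈ e, u ∈ B
      · obtain ⟨u, hu, huB⟩ := hex
        refine hAl e he ?_
        intro v hv
        by_contra hvB
        have h4 := hcon u hu v hv
        simp only [gexm_f2_j, if_pos huB, if_neg hvB] at h4
        have h5 := h1 v (Finset.mem_sdiff.mpr ⟨hsub hv, hvB⟩)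
        omega
      · push Not at hex
        obtain ⟨u, hu, v, hv, huv⟩ := h3 e he (fun v hv =>
          Finset.mem_sdiff.mpr ⟨hsub hv, hex v hv⟩)
        have h4 := hcon u hu v hv
        simp only [gexm_f2_j, if_neg (hex u hu), if_neg (hex v hv)] at h4
        exact huv h4
  · ext v
    rw [gexm_f2_B, Finset.mem_filter]
    constructor
    · rintro ⟨hv, h4⟩
      by_contra hvB
      simp only [gexm_f2_j, if_neg hvB] at h4
      have h5 := h1 v (Finset.mem_sdiff.mpr ⟨hv, hvB⟩)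
      omega
    · intro hv
      refine ⟨hBW hv, ?_⟩
      simp only [gexm_f2_j, if_pos hv]

lemma gexm_f2_ji {n : ℕ} (W B : Finset (Fin n)) (k : ℕ) (f : Fin n → ℕ) (hB : gexm_f2_B W k f = B) :
    gexm_f2_j B k (gexm_f2_i B f) = f := by
  funext v
  by_cases hvB : v ∈ B
  · have h : v ∈ W ∧ f v = k + 1 := by
      rw [← hB, gexm_f2_B, Finset.mem_filter] at hvB; exact hvB
    simp only [gexm_f2_j, if_pos hvB]
    exact h.2.symm
  · simp only [gexm_f2_j, gexm_f2_i, if_neg hvB]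

lemma gexm_f2_ij {n : ℕ} (E : Finset (Finset (Fin n))) (W B : Finset (Fin n)) (k : ℕ)
    (g : Fin n → ℕ) (hg : g ∈ CC E (W \ B) k) : gexm_f2_i B (gexm_f2_j B k g) = g := by
  rw [gexm_f2_CC] at hg
  funext v
  by_cases hvB : v ∈ B
  · simp only [gexm_f2_i, if_pos hvB]
    exact (hg.1.2 v (fun h => (Finset.mem_sdiff.mp h).2 hvB)).symm
  · simp only [gexm_f2_j, gexm_f2_i, if_neg hvB]

lemma gexm_f2_fib {n : ℕ} (E : Finset (Finset (Fin n))) (W B : Finset (Fin n)) (k : ℕ)
    (hBW : B ⊆ W) (hAl : Pool.Agent.Helper89.UB.Al E B) :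
    ((CC E W (k + 1)).filter (fun f => gexm_f2_B W k f = B)).card = PP E (W \ B) k := by
  unfold PP
  refine Finset.card_nbij' (gexm_f2_i B) (gexm_f2_j B k) ?_ ?_ ?_ ?_
  · intro f hf
    rw [Finset.mem_coe, Finset.mem_filter] at hf
    exact gexm_f2_imem E W B k f hf.1 hf.2
  · intro g hg
    rw [Finset.mem_coe, Finset.mem_filter]
    exact gexm_f2_jmem E W B k g hBW hAl hg
  · intro f hf
    rw [Finset.mem_coe, Finset.mem_filter] at hf
    exact gexm_f2_ji W B k f hf.2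
  · intro g hg
    exact gexm_f2_ij E W B k g hg

lemma gexm_le {n : ℕ} (E : Finset (Finset (Fin n))) (W A : Finset (Fin n)) (k : ℕ)
    (_hAW : A ⊆ W) :
    ((CC E W (k + 1)).filter (fun f => A ⊆ gexm_f2_B W k f)).card ≤ PP E (W \ A) (k + 1) := by
  unfold PP
  refine Finset.card_le_card_of_injOn (gexm_f2_i A) ?_ ?_
  · intro f hf
    rw [Finset.mem_coe, Finset.mem_filter, gexm_f2_CC] at hf
    obtain ⟨⟨⟨h1, h2⟩, h3⟩, h4⟩ := hf
    rw [Finset.mem_coe, gexm_f2_CC]
    refine ⟨⟨fun v hv => ?_, fun v hv => ?_⟩, ?_⟩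
    · rw [Finset.mem_sdiff] at hv
      simp only [gexm_f2_i, if_neg hv.2]
      exact h1 v hv.1
    · by_cases hvA : v ∈ A
      · simp only [gexm_f2_i, if_pos hvA]
      · simp only [gexm_f2_i, if_neg hvA]
        exact h2 v (fun h => hv (Finset.mem_sdiff.mpr ⟨h, hvA⟩))
    · intro e he hsub
      obtain ⟨u, hu, v, hv, huv⟩ := h3 e he (hsub.trans Finset.sdiff_subset)
      refine ⟨u, hu, v, hv, ?_⟩
      have hu' := (Finset.mem_sdiff.mp (hsub hu)).2
      have hv' := (Finset.mem_sdiff.mp (hsub hv)).2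
      simp only [gexm_f2_i, if_neg hu', if_neg hv']
      exact huv
  · intro f hf g hg hfg
    rw [Finset.mem_coe, Finset.mem_filter] at hf hg
    funext v
    by_cases hvA : v ∈ A
    · have h1 := (Finset.mem_filter.mp (hf.2 hvA)).2
      have h2 := (Finset.mem_filter.mp (hg.2 hvA)).2
      rw [h1, h2]
    · have := congrFun hfg v
      simp only [gexm_f2_i, if_neg hvA] at this
      exact this

theorem st_GEXM (hF1 : ST_GF1) (_hF2 : ST_F2) : ST_GEXM := by
  classical
  intro n D k0 k E W a hTwo hBD hk0 hDk ha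
  have hkD : (0 : ℝ) < (k : ℝ) + 1 - D := by
    have : (D : ℝ) < (k : ℝ) + 1 := by exact_mod_cast hDk
    linarith
  -- the sum over colourings
  have hsum : ∑ B ∈ W.powerset.filter (fun B => Pool.Agent.Helper89.UB.Al E B),
      (PP E (W \ B) k : ℝ) * (1 + a) ^ B.card =
      ∑ f ∈ CC E W (k + 1), (1 + a) ^ (gexm_f2_B W k f).card := by
    rw [← Finset.sum_fiberwise_of_maps_to (s := CC E W (k + 1)) (g := gexm_f2_B W k)
      (t := W.powerset.filter (fun B => Pool.Agent.Helper89.UB.Al E B))]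
    · refine Finset.sum_congr (Finset.filter_congr_decidable _ _ _) fun B hB => ?_
      rw [Finset.mem_filter, Finset.mem_powerset] at hB
      rw [← gexm_f2_fib E W B k hB.1 hB.2]
      rw [Finset.sum_congr rfl (g := fun _ => (1 + a) ^ B.card)]
      · rw [Finset.sum_const, nsmul_eq_mul]
      · intro f hf
        rw [(Finset.mem_filter.mp hf).2]
    · intro f hf
      rw [Finset.mem_filter, Finset.mem_powerset]
      exact gexm_f2_al E W k f hf
  have hexp : ∀ f ∈ CC E W (k + 1), (1 + a) ^ (gexm_f2_B W k f).card =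
      ∑ A ∈ W.powerset, if A ⊆ gexm_f2_B W k f then a ^ A.card else 0 := by
    intro f hf
    have h1 := Finset.sum_pow_mul_eq_add_pow a 1 (gexm_f2_B W k f)
    rw [add_comm 1 a, ← h1]
    rw [← Finset.sum_filter]
    have h2 : W.powerset.filter (fun A => A ⊆ gexm_f2_B W k f) = (gexm_f2_B W k f).powerset := by
      ext A
      rw [Finset.mem_filter, Finset.mem_powerset, Finset.mem_powerset]
      exact ⟨fun h => h.2, fun h => ⟨h.trans (gexm_f2_al E W k f hf).1, h⟩⟩
    rw [h2]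
    refine Finset.sum_congr rfl fun A _ => ?_
    rw [one_pow, mul_one]
  have hfin : ∑ f ∈ CC E W (k + 1), (1 + a) ^ (gexm_f2_B W k f).card ≤
      ∑ A ∈ W.powerset, a ^ A.card * (PP E W (k + 1) / ((k : ℝ) + 1 - D) ^ A.card) := by
    rw [Finset.sum_congr rfl hexp, Finset.sum_comm]
    refine Finset.sum_le_sum fun A hA => ?_
    rw [Finset.mem_powerset] at hA
    rw [← Finset.sum_filter, Finset.sum_const, nsmul_eq_mul, mul_comm]
    refine mul_le_mul_of_nonneg_left ?_ (by positivity)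
    rw [le_div_iff₀ (by positivity)]
    have h1 := (hF1 n D k0 (k + 1) E (W \ A) A hTwo hBD hk0 Finset.sdiff_disjoint).1
    rw [Finset.sdiff_union_of_subset hA] at h1
    have h2 : ((k : ℝ) + 1 - D) = ((k + 1 - D : ℕ) : ℝ) := by
      rw [Nat.cast_sub hDk.le]; push_cast; ring
    rw [h2]
    have h3 := gexm_le E W A k hA
    calc (((CC E W (k + 1)).filter (fun f => A ⊆ gexm_f2_B W k f)).card : ℝ) *
          ((k + 1 - D : ℕ) : ℝ) ^ A.card
        ≤ (PP E (W \ A) (k + 1) : ℝ) * ((k + 1 - D : ℕ) : ℝ) ^ A.card := by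
          refine mul_le_mul_of_nonneg_right ?_ (by positivity)
          exact_mod_cast h3
      _ = (((k + 1 - D) ^ A.card * PP E (W \ A) (k + 1) : ℕ) : ℝ) := by push_cast; ring
      _ ≤ (PP E W (k + 1) : ℝ) := by exact_mod_cast h1
  have hlast : ∑ A ∈ W.powerset, a ^ A.card * (PP E W (k + 1) / ((k : ℝ) + 1 - D) ^ A.card) =
      PP E W (k + 1) * (1 + a / ((k : ℝ) + 1 - D)) ^ W.card := by
    have h1 := Finset.sum_pow_mul_eq_add_pow (a / ((k : ℝ) + 1 - D)) 1 W
    rw [add_comm 1 (a / ((k : ℝ) + 1 - D)), ← h1, Finset.mul_sum]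
    refine Finset.sum_congr rfl fun A _ => ?_
    rw [one_pow, mul_one, div_pow]
    ring
  calc _ = ∑ f ∈ CC E W (k + 1), (1 + a) ^ (gexm_f2_B W k f).card := by
        rw [← hsum]
    _ ≤ _ := hfin
    _ = _ := hlast

end Pool.Agent.Helper5.WD
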